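import Pool.Agent.H32.AzC
import Pool.Agent.H32.AzD

set_option autoImplicit false

open Pool.Agent.H32.Az in
theorem Pool.Agent.Results.MP_3464eb_al.Counter.result :
    ∃ (G : Type) (_ : Group G), Nat.card G = 600 ∧ AMZA G < AMZA (commutator G) :=
  ⟨Pool.Agent.H32.Az.G, inferInstance, cardG,
    upG.trans_lt (lt_of_lt_of_le (by norm_num) lowN)⟩
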